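import Mathlib

set_option autoImplicit false

open Finset

namespace Pool.Agent.R630.WTA

/-- Finite trees over a ranked alphabet. -/
inductive Tree (A : Type) (rank : A → ℕ) : Type
  | node (a : A) (c : Fin (rank a) → Tree A rank) : Tree A rank

variable {A : Type} {rank : A → ℕ}

/-- The size: the number of nodes. -/
def Tree.size : Tree A rank → ℕ
  | .node _ c => 1 + ∑ i, (c i).size

/-- An `ℕ`-weighted (bottom-up) tree automaton. -/
structure Automaton (A : Type) (rank : A → ℕ) where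
  Q : Type
  [fin : Fintype Q]
  μ : ∀ a : A, (Fin (rank a) → Q) → Q → ℕ
  final : Q → ℕ

attribute [instance] Automaton.fin

variable (𝒜 : Automaton A rank)

/-- A run assigns a state to every node. -/
def Run : Tree A rank → Type
  | .node _ c => 𝒜.Q × (∀ i, Run (c i))

/-- The state of the root. -/
def Run.root : (t : Tree A rank) → Run 𝒜 t → 𝒜.Q
  | .node _ _, ρ => ρ.1

/-- The weight of a run, without the final weight. -/
def Run.weight : (t : Tree A rank) → Run 𝒜 t → ℕ
  | .node a c, ρ => 𝒜.μ a (fun i => Run.root 𝒜 (c i) (ρ.2 i)) ρ.1 * ∏ i, Run.weight (c i) (ρ.2 i)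

/-- The finitely many runs on a tree. -/
@[instance_reducible] noncomputable def runFintype : (t : Tree A rank) → Fintype (Run 𝒜 t)
  | .node _ c => by
      haveI : ∀ i, Fintype (Run 𝒜 (c i)) := fun i => runFintype (c i)
      classical
      exact (inferInstance : Fintype (𝒜.Q × (∀ i, Run 𝒜 (c i))))

noncomputable instance (t : Tree A rank) : Fintype (Run 𝒜 t) := runFintype 𝒜 t

/-- The value of a tree: the sum of the weights of all runs. -/
noncomputable def value (t : Tree A rank) : ℕ :=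
  ∑ ρ : Run 𝒜 t, Run.weight 𝒜 t ρ * 𝒜.final (Run.root 𝒜 t ρ)

/-- The growth function. -/
noncomputable def growth (n : ℕ) : ℕ := sSup {v | ∃ t : Tree A rank, t.size ≤ n ∧ v = value 𝒜 t}

/-! ### Recursive form of the value -/

/-- The weight of the runs with a given root state. -/
def val : Tree A rank → 𝒜.Q → ℕ
  | .node a c, q => ∑ p : Fin (rank a) → 𝒜.Q, 𝒜.μ a p q * ∏ i, val (c i) (p i)

open Classical in
theorem val_eq (t : Tree A rank) (q : 𝒜.Q) :
    ∑ ρ : Run 𝒜 t, (if Run.root 𝒜 t ρ = q then Run.weight 𝒜 t ρ else 0) = val 𝒜 t q := by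
  induction t generalizing q with
  | node a c ih =>
    have h1 : ∑ ρ : Run 𝒜 (.node a c), (if Run.root 𝒜 (.node a c) ρ = q then
        Run.weight 𝒜 (.node a c) ρ else 0) =
        ∑ ρ : 𝒜.Q × (∀ i, Run 𝒜 (c i)), (if ρ.1 = q then
          𝒜.μ a (fun i => Run.root 𝒜 (c i) (ρ.2 i)) ρ.1 *
            ∏ i, Run.weight 𝒜 (c i) (ρ.2 i) else 0) :=
      Fintype.sum_equiv (Equiv.refl (𝒜.Q × (∀ i, Run 𝒜 (c i)))) _ _ (fun _ => rfl)
    rw [h1, Fintype.sum_prod_type, Finset.sum_eq_single q]
    · simp only [if_true]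
      rw [val]
      have h2 : ∀ r : (∀ i, Run 𝒜 (c i)),
          𝒜.μ a (fun i => Run.root 𝒜 (c i) (r i)) q * ∏ i, Run.weight 𝒜 (c i) (r i) =
          ∑ p : Fin (rank a) → 𝒜.Q, 𝒜.μ a p q *
            ∏ i, (if Run.root 𝒜 (c i) (r i) = p i then Run.weight 𝒜 (c i) (r i) else 0) := by
        intro r
        rw [Finset.sum_eq_single (fun i => Run.root 𝒜 (c i) (r i))]
        · simp
        · intro p _ hp
          obtain ⟨i, hi⟩ := Function.ne_iff.1 hp
          rw [Finset.prod_eq_zero (Finset.mem_univ i), mul_zero]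
          rw [if_neg (fun h => hi h.symm)]
        · intro h; exact absurd (Finset.mem_univ _) h
      rw [Finset.sum_congr rfl (fun r _ => h2 r), Finset.sum_comm]
      apply Finset.sum_congr rfl
      intro p _
      rw [← Finset.mul_sum]
      congr 1
      have h3 := Finset.prod_univ_sum (fun i => (Finset.univ : Finset (Run 𝒜 (c i))))
        (fun i (x : Run 𝒜 (c i)) => if Run.root 𝒜 (c i) x = p i then Run.weight 𝒜 (c i) x else 0)
      rw [Fintype.piFinset_univ] at h3
      rw [← h3]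
      apply Finset.prod_congr rfl
      intro i _
      exact ih i (p i)
    · intro q' _ hq'
      simp [hq']
    · intro h; exact absurd (Finset.mem_univ _) h

theorem value_eq (t : Tree A rank) : value 𝒜 t = ∑ q, val 𝒜 t q * 𝒜.final q := by
  classical
  rw [value]
  have h : ∀ ρ : Run 𝒜 t, Run.weight 𝒜 t ρ * 𝒜.final (Run.root 𝒜 t ρ) =
      ∑ q, (if Run.root 𝒜 t ρ = q then Run.weight 𝒜 t ρ else 0) * 𝒜.final q := by
    intro ρ
    rw [Finset.sum_eq_single (Run.root 𝒜 t ρ)]
    · simp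
    · intro q _ hq
      rw [if_neg (fun h => hq h.symm), zero_mul]
    · intro h; exact absurd (Finset.mem_univ _) h
  rw [Finset.sum_congr rfl (fun ρ _ => h ρ), Finset.sum_comm]
  apply Finset.sum_congr rfl
  intro q _
  rw [← Finset.sum_mul, val_eq]

/-! ### Contexts -/

/-- A context: a tree transformation which is linear on values. -/
structure Cx where
  τ : Tree A rank → Tree A rank
  M : 𝒜.Q → 𝒜.Q → ℕ
  s : ℕ
  size_τ : ∀ t, (τ t).size = s + t.size
  val_τ : ∀ t q, val 𝒜 (τ t) q = ∑ p, M q p * val 𝒜 t p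

open Classical in
/-- The trivial context. -/
noncomputable def Cx.id : Cx 𝒜 where
  τ := fun t => t
  M := fun q p => if q = p then 1 else 0
  s := 0
  size_τ := fun t => (zero_add _).symm
  val_τ := fun t q => by simp

/-- Composition of contexts. -/
def Cx.comp {𝒜 : Automaton A rank} (C D : Cx 𝒜) : Cx 𝒜 where
  τ := fun t => C.τ (D.τ t)
  M := fun q p => ∑ r, C.M q r * D.M r p
  s := C.s + D.s
  size_τ := fun t => by rw [C.size_τ, D.size_τ, add_assoc]
  val_τ := fun t q => by
    rw [C.val_τ]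
    simp only [D.val_τ, Finset.mul_sum, Finset.sum_mul]
    rw [Finset.sum_comm]
    apply Finset.sum_congr rfl; intro p _
    apply Finset.sum_congr rfl; intro r _
    ring

open Classical in
/-- The one-node context. -/
noncomputable def Cx.node (a : A) (c : Fin (rank a) → Tree A rank) (i : Fin (rank a)) : Cx 𝒜 where
  τ := fun t => .node a (Function.update c i t)
  M := fun q p => ∑ ps ∈ (Finset.univ.filter fun ps : Fin (rank a) → 𝒜.Q => ps i = p),
    𝒜.μ a ps q * ∏ j ∈ Finset.univ.erase i, val 𝒜 (c j) (ps j)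
  s := 1 + ∑ j ∈ Finset.univ.erase i, (c j).size
  size_τ := fun t => by
    rw [Tree.size, ← Finset.add_sum_erase Finset.univ _ (Finset.mem_univ i)]
    rw [Function.update_self]
    have : ∑ x ∈ Finset.univ.erase i, (Function.update c i t x).size =
        ∑ j ∈ Finset.univ.erase i, (c j).size := by
      apply Finset.sum_congr rfl
      intro j hj
      rw [Function.update_of_ne (Finset.ne_of_mem_erase hj)]
    rw [this]
    ring
  val_τ := fun t q => by
    rw [val]
    have h1 : ∀ ps : Fin (rank a) → 𝒜.Q,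
        𝒜.μ a ps q * ∏ j, val 𝒜 (Function.update c i t j) (ps j) =
        𝒜.μ a ps q * (∏ j ∈ Finset.univ.erase i, val 𝒜 (c j) (ps j)) * val 𝒜 t (ps i) := by
      intro ps
      rw [← Finset.mul_prod_erase Finset.univ _ (Finset.mem_univ i), Function.update_self]
      have : ∏ x ∈ Finset.univ.erase i, val 𝒜 (Function.update c i t x) (ps x) =
          ∏ j ∈ Finset.univ.erase i, val 𝒜 (c j) (ps j) := by
        apply Finset.prod_congr rfl
        intro j hj
        rw [Function.update_of_ne (Finset.ne_of_mem_erase hj)]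
      rw [this]
      ring
    rw [Finset.sum_congr rfl (fun ps _ => h1 ps)]
    simp only [Finset.sum_mul]
    rw [← Finset.sum_fiberwise (s := Finset.univ) (g := fun ps : Fin (rank a) → 𝒜.Q => ps i)]
    apply Finset.sum_congr rfl
    intro p _
    apply Finset.sum_congr rfl
    intro ps hps
    rw [(Finset.mem_filter.1 hps).2]

theorem Cx.node_self (a : A) (c : Fin (rank a) → Tree A rank) (i : Fin (rank a)) :
    (Cx.node 𝒜 a c i).τ (c i) = .node a c := by
  show Tree.node a (Function.update c i (c i)) = _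
  rw [Function.update_eq_self]


/-! ### Reachability -/

/-- `p` is reachable from `q`. -/
def Reach (q p : 𝒜.Q) : Prop := ∃ C : Cx 𝒜, 1 ≤ C.M q p

theorem Reach.refl (q : 𝒜.Q) : Reach 𝒜 q q := ⟨Cx.id 𝒜, by simp [Cx.id]⟩

variable {𝒜} in
theorem Cx.le_comp (C D : Cx 𝒜) (q r p : 𝒜.Q) : C.M q r * D.M r p ≤ (C.comp D).M q p := by
  show _ ≤ ∑ r, C.M q r * D.M r p
  exact Finset.single_le_sum (f := fun r => C.M q r * D.M r p) (fun _ _ => Nat.zero_le _)
    (Finset.mem_univ r)

theorem Reach.trans {q r p : 𝒜.Q} (h1 : Reach 𝒜 q r) (h2 : Reach 𝒜 r p) : Reach 𝒜 q p := by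
  obtain ⟨C, hC⟩ := h1
  obtain ⟨D, hD⟩ := h2
  exact ⟨C.comp D, le_trans (Nat.mul_le_mul hC hD) (Cx.le_comp C D q r p)⟩

/-- `q` is accessible from a final state. -/
def Acc (q : 𝒜.Q) : Prop := ∃ (C : Cx 𝒜) (f : 𝒜.Q), 1 ≤ 𝒜.final f ∧ 1 ≤ C.M f q

theorem Acc.of_reach {q p : 𝒜.Q} (h : Acc 𝒜 q) (h2 : Reach 𝒜 q p) : Acc 𝒜 p := by
  obtain ⟨C, f, hf, hC⟩ := h
  obtain ⟨D, hD⟩ := h2
  exact ⟨C.comp D, f, hf, le_trans (Nat.mul_le_mul hC hD) (Cx.le_comp C D f q p)⟩

theorem size_pos (t : Tree A rank) : 1 ≤ t.size := by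
  cases t with
  | node a c => rw [Tree.size]; omega

theorem node_s (a : A) (c : Fin (rank a) → Tree A rank) (i : Fin (rank a)) :
    (Cx.node 𝒜 a c i).s + (c i).size = (Tree.node a c).size := by
  rw [← (Cx.node 𝒜 a c i).size_τ, Cx.node_self]

theorem size_le (a : A) (c : Fin (rank a) → Tree A rank) (i : Fin (rank a)) :
    (c i).size ≤ (Tree.node a c).size := by
  rw [← node_s (𝒜 := ⟨Unit, fun _ _ _ => 0, fun _ => 0⟩) a c i]; omega

/-- A nonzero term gives reachability of the children states. -/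
theorem reach_of_term (a : A) (c : Fin (rank a) → Tree A rank) (ps : Fin (rank a) → 𝒜.Q)
    (q : 𝒜.Q) (h : 𝒜.μ a ps q * ∏ j, val 𝒜 (c j) (ps j) ≠ 0) (i : Fin (rank a)) :
    Reach 𝒜 q (ps i) := by
  classical
  refine ⟨Cx.node 𝒜 a c i, ?_⟩
  show 1 ≤ ∑ ps' ∈ (Finset.univ.filter fun ps' : Fin (rank a) → 𝒜.Q => ps' i = ps i),
    𝒜.μ a ps' q * ∏ j ∈ Finset.univ.erase i, val 𝒜 (c j) (ps' j)
  have h1 : 𝒜.μ a ps q * ∏ j ∈ Finset.univ.erase i, val 𝒜 (c j) (ps j) ≠ 0 := by
    intro h0
    apply h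
    rw [← Finset.mul_prod_erase Finset.univ _ (Finset.mem_univ i)]
    rw [mul_left_comm, h0, mul_zero]
  refine le_trans (Nat.one_le_iff_ne_zero.2 h1) ?_
  exact Finset.single_le_sum (f := fun ps' => 𝒜.μ a ps' q *
    ∏ j ∈ Finset.univ.erase i, val 𝒜 (c j) (ps' j)) (fun _ _ => Nat.zero_le _)
    (Finset.mem_filter.2 ⟨Finset.mem_univ _, rfl⟩)

open Classical in
/-- Splitting of the value according to the children states in `S`. -/
theorem val_le_split (a : A) (c : Fin (rank a) → Tree A rank) (q : 𝒜.Q) (S : Finset 𝒜.Q) :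
    val 𝒜 (.node a c) q ≤
      (∑ ps ∈ (Finset.univ.filter fun ps : Fin (rank a) → 𝒜.Q => ∀ i, ps i ∉ S),
        𝒜.μ a ps q * ∏ j, val 𝒜 (c j) (ps j)) +
      ∑ i, ∑ p ∈ S, (Cx.node 𝒜 a c i).M q p * val 𝒜 (c i) p := by
  have key : ∀ i, ∑ p ∈ S, (Cx.node 𝒜 a c i).M q p * val 𝒜 (c i) p =
      ∑ ps : Fin (rank a) → 𝒜.Q, if ps i ∈ S then 𝒜.μ a ps q * ∏ j, val 𝒜 (c j) (ps j) else 0 := by
    intro i
    rw [← Finset.sum_fiberwise (s := Finset.univ) (g := fun ps : Fin (rank a) → 𝒜.Q => ps i)]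
    rw [← Finset.sum_subset (Finset.subset_univ S)]
    · apply Finset.sum_congr rfl
      intro p hp
      show (∑ ps ∈ (Finset.univ.filter fun ps : Fin (rank a) → 𝒜.Q => ps i = p),
        𝒜.μ a ps q * ∏ j ∈ Finset.univ.erase i, val 𝒜 (c j) (ps j)) * val 𝒜 (c i) p = _
      rw [Finset.sum_mul]
      apply Finset.sum_congr rfl
      intro ps hps
      have hpi := (Finset.mem_filter.1 hps).2
      rw [if_pos (by rw [hpi]; exact hp), ← Finset.mul_prod_erase Finset.univ _ (Finset.mem_univ i),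
        hpi]
      ring
    · intro p _ hp
      apply Finset.sum_eq_zero
      intro ps hps
      rw [if_neg (by rw [(Finset.mem_filter.1 hps).2]; exact hp)]
  rw [Finset.sum_congr rfl (fun i _ => key i), Finset.sum_comm, Finset.sum_filter,
    ← Finset.sum_add_distrib, val]
  apply Finset.sum_le_sum
  intro ps _
  by_cases h : ∀ i, ps i ∉ S
  · rw [if_pos h]; exact Nat.le_add_right _ _
  · push Not at h
    obtain ⟨i, hi⟩ := h
    refine le_trans ?_ (Nat.le_add_left _ _)
    have := Finset.single_le_sum (f := fun i => if ps i ∈ S then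
      𝒜.μ a ps q * ∏ j, val 𝒜 (c j) (ps j) else 0) (fun _ _ => Nat.zero_le _) (Finset.mem_univ i)
    simpa [hi] using this

end Pool.Agent.R630.WTA
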