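import Pool.Agent.R630.WTA.Upper

set_option autoImplicit false

open Finset Filter Topology

namespace Pool.Agent.R630.WTA

variable {A : Type} {rank : A → ℕ} [Fintype A] (𝒜 : Automaton A rank)

/-- exponential upper bound -/
theorem sum_val_le (t : Tree A rank) : ∑ q, val 𝒜 t q ≤ (WW 𝒜 + 1) ^ t.size := by
  induction t with
  | node a c ih =>
    have h1 : ∀ q, val 𝒜 (.node a c) q ≤ (∑ ps : Fin (rank a) → 𝒜.Q, 𝒜.μ a ps q) *
        ∏ i, (WW 𝒜 + 1) ^ (c i).size := by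
      intro q
      rw [val, Finset.sum_mul]
      apply Finset.sum_le_sum
      intro ps _
      apply Nat.mul_le_mul_left
      apply Finset.prod_le_prod' 
      intro i _
      exact le_trans (Finset.single_le_sum (f := fun q => val 𝒜 (c i) q)
        (fun _ _ => Nat.zero_le _) (Finset.mem_univ _)) (ih i)
    calc ∑ q, val 𝒜 (.node a c) q ≤ ∑ q, (∑ ps : Fin (rank a) → 𝒜.Q, 𝒜.μ a ps q) *
        ∏ i, (WW 𝒜 + 1) ^ (c i).size := Finset.sum_le_sum (fun q _ => h1 q)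
      _ = (∑ q, ∑ ps : Fin (rank a) → 𝒜.Q, 𝒜.μ a ps q) * ∏ i, (WW 𝒜 + 1) ^ (c i).size := by
          rw [Finset.sum_mul]
      _ ≤ (WW 𝒜 + 1) * (WW 𝒜 + 1) ^ (∑ i, (c i).size) := by
          rw [Finset.prod_pow_eq_pow_sum]
          apply Nat.mul_le_mul_right
          refine le_trans ?_ (Nat.le_succ _)
          exact Finset.single_le_sum (f := fun a => ∑ q, ∑ ps : Fin (rank a) → 𝒜.Q,
            𝒜.μ a ps q) (fun _ _ => Nat.zero_le _) (Finset.mem_univ a)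
      _ = (WW 𝒜 + 1) ^ (Tree.node a c).size := by
          rw [Tree.size, pow_add, pow_one]

theorem value_le (t : Tree A rank) :
    value 𝒜 t ≤ (∑ q, 𝒜.final q) * (WW 𝒜 + 1) ^ t.size := by
  rw [value_eq, Finset.sum_mul]
  apply Finset.sum_le_sum
  intro q _
  rw [mul_comm]
  apply Nat.mul_le_mul_left
  exact le_trans (Finset.single_le_sum (f := fun q => val 𝒜 t q)
        (fun _ _ => Nat.zero_le _) (Finset.mem_univ _)) (sum_val_le 𝒜 t)

theorem bdd (n : ℕ) : BddAbove {v | ∃ t : Tree A rank, t.size ≤ n ∧ v = value 𝒜 t} := by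
  refine ⟨(∑ q, 𝒜.final q) * (WW 𝒜 + 1) ^ n, ?_⟩
  rintro v ⟨t, ht, rfl⟩
  refine le_trans (value_le 𝒜 t) ?_
  apply Nat.mul_le_mul_left
  exact Nat.pow_le_pow_right (Nat.succ_pos _) ht

theorem le_growth (t : Tree A rank) (n : ℕ) (h : t.size ≤ n) : value 𝒜 t ≤ growth 𝒜 n :=
  le_csSup (bdd 𝒜 n) ⟨t, h, rfl⟩

theorem growth_le (n : ℕ) : growth 𝒜 n ≤ (∑ q, 𝒜.final q) * (WW 𝒜 + 1) ^ n := by
  rw [growth]
  rcases Set.eq_empty_or_nonempty {v | ∃ t : Tree A rank, t.size ≤ n ∧ v = value 𝒜 t} with h | h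
  · rw [h, csSup_empty]; exact Nat.zero_le _
  · apply csSup_le h
    rintro v ⟨t, ht, rfl⟩
    refine le_trans (value_le 𝒜 t) ?_
    apply Nat.mul_le_mul_left
    exact Nat.pow_le_pow_right (Nat.succ_pos _) ht

/-- The iterated context. -/
theorem lower (q : 𝒜.Q) (hacc : Acc 𝒜 q) (hprod : ∃ t, 1 ≤ val 𝒜 t q) :
    ∃ n0, ∀ (C : Cx 𝒜) (k : ℕ), (C.M q q) ^ k ≤ growth 𝒜 (n0 + k * C.s) := by
  obtain ⟨D, f, hf, hD⟩ := hacc
  obtain ⟨t, ht⟩ := hprod
  refine ⟨D.s + t.size, fun C k => ?_⟩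
  have h1 : ∀ k, (C.τ^[k] t).size = k * C.s + t.size ∧ (C.M q q) ^ k ≤ val 𝒜 (C.τ^[k] t) q := by
    intro k
    induction k with
    | zero => exact ⟨by simp, by simpa using ht⟩
    | succ k ih =>
      rw [Function.iterate_succ_apply']
      refine ⟨by rw [C.size_τ, ih.1]; ring, ?_⟩
      rw [C.val_τ, pow_succ, mul_comm]
      refine le_trans (Nat.mul_le_mul_left _ ih.2) ?_
      exact Finset.single_le_sum (f := fun p => C.M q p * val 𝒜 (C.τ^[k] t) p)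
        (fun _ _ => Nat.zero_le _) (Finset.mem_univ q)
  obtain ⟨h2, h3⟩ := h1 k
  have h4 : value 𝒜 (D.τ (C.τ^[k] t)) ≤ growth 𝒜 (D.s + t.size + k * C.s) := by
    apply le_growth
    rw [D.size_τ, h2]; omega
  refine le_trans (le_trans h3 ?_) h4
  rw [value_eq]
  refine le_trans ?_ (Finset.single_le_sum (f := fun p => val 𝒜 (D.τ (C.τ^[k] t)) p * 𝒜.final p)
        (fun _ _ => Nat.zero_le _) (Finset.mem_univ f))
  refine le_trans ?_ (Nat.le_mul_of_pos_right _ hf)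
  rw [D.val_τ]
  refine le_trans ?_ (Finset.single_le_sum (f := fun p => D.M f p * val 𝒜 (C.τ^[k] t) p)
        (fun _ _ => Nat.zero_le _) (Finset.mem_univ q))
  exact Nat.le_mul_of_pos_left _ hD

/-- Upper bound for the growth. -/
theorem upper (L : ℝ) (hL1 : 1 ≤ L)
    (hL : ∀ q, Acc 𝒜 q → (∃ t, 1 ≤ val 𝒜 t q) → ∀ C : Cx 𝒜, (C.M q q : ℝ) ≤ L ^ C.s) :
    ∃ (K : ℝ) (e : ℕ), 0 ≤ K ∧ ∀ n : ℕ, 1 ≤ n → (growth 𝒜 n : ℝ) ≤ K * (n : ℝ) ^ e * L ^ n := by
  classical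
  have h1 : ∀ q : 𝒜.Q, ∃ (K : ℝ) (e : ℕ), 0 ≤ K ∧ ∀ t : Tree A rank,
      ((val 𝒜 t q * 𝒜.final q : ℕ) : ℝ) ≤ K * (t.size : ℝ) ^ e * L ^ t.size := by
    intro q
    by_cases hq : 𝒜.final q = 0
    · refine ⟨0, 0, le_rfl, fun t => ?_⟩
      rw [hq]; simp
    · have hacc : Acc 𝒜 q := ⟨Cx.id 𝒜, q, Nat.one_le_iff_ne_zero.2 hq, by simp [Cx.id]⟩
      obtain ⟨K, e, hK, hKe⟩ := main_bound 𝒜 L hL1 hL _ q le_rfl hacc
      refine ⟨K * 𝒜.final q, e, by positivity, fun t => ?_⟩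
      push_cast
      have := mul_le_mul_of_nonneg_right (hKe t) (Nat.cast_nonneg (α := ℝ) (𝒜.final q))
      linarith
  choose K e hK hKe using h1
  refine ⟨∑ q, K q, ∑ q, e q, Finset.sum_nonneg (fun q _ => hK q), fun n hn => ?_⟩
  have hn1 : (1 : ℝ) ≤ (n : ℝ) := by exact_mod_cast hn
  have hX : (0 : ℝ) ≤ (∑ q, K q) * (n : ℝ) ^ (∑ q, e q) * L ^ n := by
    have := Finset.sum_nonneg (fun q (_ : q ∈ (Finset.univ : Finset 𝒜.Q)) => hK q)
    positivity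
  rcases Set.eq_empty_or_nonempty {v | ∃ t : Tree A rank, t.size ≤ n ∧ v = value 𝒜 t} with h | h
  · rw [growth, h, csSup_empty]; simpa using hX
  · obtain ⟨t, ht, hv⟩ := Nat.sSup_mem h (bdd 𝒜 n)
    rw [growth, hv, value_eq]
    push_cast
    rw [Finset.sum_mul, Finset.sum_mul]
    apply Finset.sum_le_sum
    intro q _
    have h2 := hKe q t
    push_cast at h2
    refine le_trans h2 ?_
    have hs : (1 : ℝ) ≤ (t.size : ℝ) := by exact_mod_cast size_pos t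
    have hsn : (t.size : ℝ) ≤ (n : ℝ) := by exact_mod_cast ht
    have b1 : (t.size : ℝ) ^ e q ≤ (n : ℝ) ^ (∑ q, e q) := by
      refine le_trans (pow_le_pow_left₀ (by positivity) hsn _) ?_
      apply pow_le_pow_right₀ hn1
      exact Finset.single_le_sum (f := e) (fun _ _ => Nat.zero_le _) (Finset.mem_univ q)
    have b2 : L ^ t.size ≤ L ^ n := pow_le_pow_right₀ hL1 ht
    apply mul_le_mul _ b2 (by positivity) (by have := hK q; positivity)
    exact mul_le_mul_of_nonneg_left b1 (hK q)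

/-- The analytic lemma: `M ≤ L ^ s` when `L` is at least the lower growth rate. -/
theorem le_pow_of_liminf (g : ℕ → ℕ) (hg : Monotone g) (L : ℝ) (hL1 : 1 ≤ L)
    (hfreq : ∀ θ : ℝ, L < θ → ∃ᶠ n : ℕ in atTop, (g n : ℝ) < θ ^ n)
    (m n0 s : ℕ) (hm : ∀ k : ℕ, m ^ k ≤ g (n0 + k * s)) : (m : ℝ) ≤ L ^ s := by
  rcases Nat.eq_zero_or_pos s with hs | hs
  · subst hs
    rw [pow_zero]
    by_contra hcon
    push Not at hcon
    have hm2 : 1 < m := by exact_mod_cast hcon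
    have h1 : g n0 < m ^ (g n0) := Nat.lt_pow_self hm2
    have h2 := hm (g n0)
    rw [mul_zero, add_zero] at h2
    omega
  · by_contra hcon
    push Not at hcon
    have hL0 : 0 < L := by linarith
    have hm0 : (0 : ℝ) ≤ (m : ℝ) := Nat.cast_nonneg _
    set θ : ℝ := (m : ℝ) ^ ((s : ℝ)⁻¹) with hθ
    have hθs : θ ^ s = m := Real.rpow_inv_natCast_pow hm0 (by omega)
    have hθ0 : 0 ≤ θ := Real.rpow_nonneg hm0 _
    have hθL : L < θ := by
      by_contra h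
      push Not at h
      have := pow_le_pow_left₀ hθ0 h s
      rw [hθs] at this
      linarith
    obtain ⟨θ', h1, h2⟩ := exists_between hθL
    have hθ'0 : 0 < θ' := by linarith
    have hθ1 : 1 ≤ θ := by linarith
    have hθp : 0 < θ := by linarith
    have hlim : Tendsto (fun n : ℕ => (θ' / θ) ^ n) atTop (𝓝 0) :=
      tendsto_pow_atTop_nhds_zero_of_lt_one (by positivity) ((div_lt_one hθp).2 h2)
    have hev : ∀ᶠ n : ℕ in atTop, (θ' / θ) ^ n < (θ ^ (n0 + s))⁻¹ :=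
      hlim.eventually (gt_mem_nhds (by positivity))
    have hev2 : ∀ᶠ n : ℕ in atTop, n0 + s ≤ n := eventually_ge_atTop _
    obtain ⟨n, hn, hn1, hn2⟩ := ((hfreq θ' h1).and_eventually (hev.and hev2)).exists
    set k := (n - n0) / s with hk
    have hk1 : n0 + k * s ≤ n := by
      have := Nat.div_mul_le_self (n - n0) s
      rw [← hk] at this
      omega
    have hk2 : n - n0 - s ≤ s * k := by
      have h5 := Nat.div_add_mod (n - n0) s
      have h6 := Nat.mod_lt (n - n0) hs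
      rw [← hk] at h5
      omega
    have h3 : (m : ℝ) ^ k ≤ (g n : ℝ) := by
      exact_mod_cast le_trans (hm k) (hg hk1)
    have h4 : θ ^ (n - n0 - s) ≤ (m : ℝ) ^ k := by
      rw [← hθs, ← pow_mul]
      exact pow_le_pow_right₀ hθ1 hk2
    have h5 : θ' ^ n = (θ' / θ) ^ n * θ ^ n := by
      rw [div_pow, div_mul_cancel₀ _ (by positivity)]
    have h6 : θ ^ n = θ ^ (n - n0 - s) * θ ^ (n0 + s) := by
      rw [← pow_add]; congr 1; omega
    have h7 : (θ' / θ) ^ n * θ ^ n < (θ ^ (n0 + s))⁻¹ * θ ^ n :=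
      mul_lt_mul_of_pos_right hn1 (by positivity)
    rw [h6] at h7
    have h8 : (θ ^ (n0 + s))⁻¹ * (θ ^ (n - n0 - s) * θ ^ (n0 + s)) = θ ^ (n - n0 - s) := by
      field_simp
    rw [h8, ← h6, ← h5] at h7
    linarith

theorem growth_mono : Monotone (growth 𝒜) := by
  intro m n hmn
  rcases Set.eq_empty_or_nonempty {v | ∃ t : Tree A rank, t.size ≤ m ∧ v = value 𝒜 t} with h | h
  · rw [growth, h, csSup_empty]; exact Nat.zero_le _
  · apply csSup_le_csSup (bdd 𝒜 n) h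
    rintro v ⟨t, ht, rfl⟩
    exact ⟨t, le_trans ht hmn, rfl⟩

/-- Polynomial bound relative to any number `L ≥ 1` above the lower growth rate. -/
theorem growth_bound (L : ℝ) (hL1 : 1 ≤ L)
    (hfreq : ∀ θ : ℝ, L < θ → ∃ᶠ n : ℕ in atTop, (growth 𝒜 n : ℝ) < θ ^ n) :
    ∃ (K : ℝ) (e : ℕ), 0 ≤ K ∧ ∀ n : ℕ, 1 ≤ n → (growth 𝒜 n : ℝ) ≤ K * (n : ℝ) ^ e * L ^ n := by
  apply upper 𝒜 L hL1
  intro q hacc hprod C
  obtain ⟨n0, hn0⟩ := lower 𝒜 q hacc hprod
  exact le_pow_of_liminf (growth 𝒜) (growth_mono 𝒜) L hL1 hfreq _ n0 C.s (hn0 C)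


theorem root_lt {x b : ℝ} {n : ℕ} (hn : 1 ≤ n) (hx : 0 ≤ x) (hb : 0 ≤ b) (h : x < b ^ n) :
    x ^ (1 / (n : ℝ)) < b := by
  have hn0 : (n : ℝ) ≠ 0 := by
    have : (0 : ℝ) < n := by exact_mod_cast hn
    exact this.ne'
  have h1 : x ^ (1 / (n : ℝ)) < (b ^ n) ^ (1 / (n : ℝ)) :=
    Real.rpow_lt_rpow hx h (by positivity)
  rwa [one_div, Real.pow_rpow_inv_natCast hb (by omega), ← one_div] at h1

theorem le_root {x b : ℝ} {n : ℕ} (hn : 1 ≤ n) (hb : 0 ≤ b) (h : b ^ n ≤ x) :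
    b ≤ x ^ (1 / (n : ℝ)) := by
  have h1 : (b ^ n) ^ (1 / (n : ℝ)) ≤ x ^ (1 / (n : ℝ)) :=
    Real.rpow_le_rpow (by positivity) h (by positivity)
  rwa [one_div, Real.pow_rpow_inv_natCast hb (by omega), ← one_div] at h1

theorem main (hexp : ∃ c : ℝ, 0 < c ∧ ∀ᶠ n : ℕ in atTop, (2 : ℝ) ^ (c * n) ≤ growth 𝒜 n) :
    ∃ ρ : ℝ, 1 < ρ ∧
      Tendsto (fun n : ℕ => (growth 𝒜 n : ℝ) ^ (1 / (n : ℝ))) atTop (𝓝 ρ) ∧
      ∃ (K : ℝ) (e : ℕ), ∀ n : ℕ, 1 ≤ n → (growth 𝒜 n : ℝ) ≤ K * (n : ℝ) ^ e * ρ ^ n := by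
  obtain ⟨c, hc, hexp⟩ := hexp
  set S : Set ℝ := {θ | 1 ≤ θ ∧ ∃ᶠ n : ℕ in atTop, (growth 𝒜 n : ℝ) < θ ^ n} with hS
  have hSne : S.Nonempty := by
    set F : ℝ := ((∑ q, 𝒜.final q : ℕ) : ℝ) with hF
    set B : ℝ := ((WW 𝒜 + 1 : ℕ) : ℝ) with hB
    have hF0 : 0 ≤ F := Nat.cast_nonneg _
    have hB1 : 1 ≤ B := by rw [hB]; push_cast; have := Nat.cast_nonneg (α := ℝ) (WW 𝒜); linarith
    refine ⟨(F + 1) * B, by nlinarith, Eventually.frequently ?_⟩
    filter_upwards [eventually_ge_atTop 1] with n hn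
    have h1 : (growth 𝒜 n : ℝ) ≤ F * B ^ n := by
      have := growth_le 𝒜 n
      rw [hF, hB]
      exact_mod_cast this
    have h2 : F < (F + 1) ^ n := by
      have h3 : F + 1 ≤ (F + 1) ^ n := le_self_pow₀ (by linarith) (by omega)
      linarith
    have h4 : 0 < B ^ n := by positivity
    rw [mul_pow]
    have := mul_lt_mul_of_pos_right h2 h4
    linarith
  have hSbdd : BddBelow S := ⟨1, fun θ hθ => hθ.1⟩
  set L := sInf S with hL
  have h2c : (1 : ℝ) < (2 : ℝ) ^ c := Real.one_lt_rpow (by norm_num) hc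
  have hL2 : (2 : ℝ) ^ c ≤ L := by
    apply le_csInf hSne
    rintro θ ⟨h1, h2⟩
    obtain ⟨n, hn1, hn2, hn3⟩ := (h2.and_eventually (hexp.and (eventually_ge_atTop 1))).exists
    by_contra hcon
    push Not at hcon
    have h3 : θ ^ n ≤ ((2 : ℝ) ^ c) ^ n := pow_le_pow_left₀ (by linarith) hcon.le n
    have h4 : ((2 : ℝ) ^ c) ^ n = (2 : ℝ) ^ (c * n) := by
      rw [Real.rpow_mul_natCast (by norm_num)]
    rw [h4] at h3
    linarith
  have hL1 : 1 < L := lt_of_lt_of_le h2c hL2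
  have hfreq : ∀ θ : ℝ, L < θ → ∃ᶠ n : ℕ in atTop, (growth 𝒜 n : ℝ) < θ ^ n := by
    intro θ hθ
    obtain ⟨θ0, h1, h2⟩ := exists_lt_of_csInf_lt hSne hθ
    refine h1.2.mono fun n hn => lt_of_lt_of_le hn ?_
    exact pow_le_pow_left₀ (by linarith [h1.1]) h2.le n
  obtain ⟨K, e, hK, hKe⟩ := growth_bound 𝒜 L hL1.le hfreq
  refine ⟨L, hL1, ?_, K, e, hKe⟩
  rw [tendsto_order]
  refine ⟨fun a ha => ?_, fun b hb => ?_⟩
  · obtain ⟨θ, h1, h2⟩ := exists_between (max_lt ha hL1)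
    have hθ1 : 1 < θ := lt_of_le_of_lt (le_max_right _ _) h1
    have hθS : θ ∉ S := fun h => absurd (csInf_le hSbdd h) (not_le.2 h2)
    have hev : ∀ᶠ n : ℕ in atTop, θ ^ n ≤ (growth 𝒜 n : ℝ) := by
      by_contra hcon
      apply hθS
      refine ⟨hθ1.le, ?_⟩
      rw [Filter.not_eventually] at hcon
      exact hcon.mono fun n hn => not_le.1 hn
    filter_upwards [hev, eventually_ge_atTop 1] with n hn hn1
    exact lt_of_lt_of_le (lt_of_le_of_lt (le_max_left _ _) h1) (le_root hn1 (by linarith) hn)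
  · have hb0 : 0 < b := by linarith
    have hr : |L / b| < 1 := by
      rw [abs_of_pos (by positivity), div_lt_one hb0]; exact hb
    have hlim := (tendsto_pow_const_mul_const_pow_of_abs_lt_one e hr).const_mul K
    rw [mul_zero] at hlim
    have hev := hlim.eventually (gt_mem_nhds (zero_lt_one))
    filter_upwards [hev, eventually_ge_atTop 1] with n hn hn1
    apply root_lt hn1 (Nat.cast_nonneg _) hb0.le
    refine lt_of_le_of_lt (hKe n hn1) ?_
    have h3 : K * (n : ℝ) ^ e * L ^ n = (K * ((n : ℝ) ^ e * (L / b) ^ n)) * b ^ n := by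
      rw [div_pow]
      field_simp
    rw [h3]
    have h4 : 0 < b ^ n := by positivity
    have := mul_lt_mul_of_pos_right hn h4
    linarith

end Pool.Agent.R630.WTA
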