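import Pool.Agent.R630.WTA.Core

set_option autoImplicit false

open Finset

namespace Pool.Agent.R630.WTA

variable {A : Type} {rank : A → ℕ} [Fintype A] (𝒜 : Automaton A rank)

/-- A bound for all ranks. -/
noncomputable def RR (rank : A → ℕ) : ℕ := ∑ a, rank a

theorem rank_le (a : A) : rank a ≤ RR rank :=
  Finset.single_le_sum (f := rank) (fun _ _ => Nat.zero_le _) (Finset.mem_univ a)

/-- A bound for all sums of transition weights. -/
noncomputable def WW : ℕ := ∑ a, ∑ q, ∑ ps : Fin (rank a) → 𝒜.Q, 𝒜.μ a ps q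

theorem sum_μ_le (a : A) (q : 𝒜.Q) : ∑ ps : Fin (rank a) → 𝒜.Q, 𝒜.μ a ps q ≤ WW 𝒜 := by
  refine le_trans ?_ (Finset.single_le_sum (f := fun a => ∑ q, ∑ ps : Fin (rank a) → 𝒜.Q,
    𝒜.μ a ps q) (fun _ _ => Nat.zero_le _) (Finset.mem_univ a))
  exact Finset.single_le_sum (f := fun q => ∑ ps : Fin (rank a) → 𝒜.Q,
    𝒜.μ a ps q) (fun _ _ => Nat.zero_le _) (Finset.mem_univ q)

/-- The set of states reachable from `q`. -/
noncomputable def RS (q : 𝒜.Q) : Finset 𝒜.Q := by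
  classical exact Finset.univ.filter fun p => Reach 𝒜 q p

theorem mem_RS {q p : 𝒜.Q} : p ∈ RS 𝒜 q ↔ Reach 𝒜 q p := by
  classical
  simp [RS]

theorem main_bound (L : ℝ) (hL1 : 1 ≤ L)
    (hL : ∀ q, Acc 𝒜 q → (∃ t, 1 ≤ val 𝒜 t q) → ∀ C : Cx 𝒜, (C.M q q : ℝ) ≤ L ^ C.s) :
    ∀ (n : ℕ) (q : 𝒜.Q), (RS 𝒜 q).card ≤ n → Acc 𝒜 q →
      ∃ (K : ℝ) (e : ℕ), 0 ≤ K ∧ ∀ t, (val 𝒜 t q : ℝ) ≤ K * (t.size : ℝ) ^ e * L ^ t.size := by
  classical
  intro n
  induction n with
  | zero =>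
    intro q hq _
    have : q ∈ RS 𝒜 q := (mem_RS 𝒜).2 (Reach.refl 𝒜 q)
    have h0 := Finset.card_pos.2 ⟨q, this⟩
    omega
  | succ n ih =>
    intro q hcard hacc
    by_cases hprod : ∃ t, 1 ≤ val 𝒜 t q
    swap
    · refine ⟨0, 0, le_rfl, fun t => ?_⟩
      have : val 𝒜 t q = 0 := by
        by_contra h
        exact hprod ⟨t, Nat.one_le_iff_ne_zero.2 h⟩
      rw [this]
      simp
    have hL0 : (0 : ℝ) < L := by linarith
    -- lower states
    have hlow : ∀ p : 𝒜.Q, ∃ (K : ℝ) (e : ℕ), 0 ≤ K ∧ ((Reach 𝒜 q p ∧ ¬ Reach 𝒜 p q) →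
        ∀ t, (val 𝒜 t p : ℝ) ≤ K * (t.size : ℝ) ^ e * L ^ t.size) := by
      intro p
      by_cases hp : Reach 𝒜 q p ∧ ¬ Reach 𝒜 p q
      · have hsub : RS 𝒜 p ⊂ RS 𝒜 q := by
          refine ⟨?_, ?_⟩
          · intro r hr
            exact (mem_RS 𝒜).2 (hp.1.trans 𝒜 ((mem_RS 𝒜).1 hr))
          · intro hh
            exact hp.2 ((mem_RS 𝒜).1 (hh ((mem_RS 𝒜).2 (Reach.refl 𝒜 q))))
        have hlt := Finset.card_lt_card hsub
        obtain ⟨K, e, hK, hKe⟩ := ih p (by omega) (hacc.of_reach 𝒜 hp.1)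
        exact ⟨K, e, hK, fun _ => hKe⟩
      · exact ⟨0, 0, le_rfl, fun h => absurd h hp⟩
    choose Kf ef hKf hKef using hlow
    set K0 : ℝ := ∑ p, Kf p + 1 with hK0
    set e0 : ℕ := ∑ p, ef p with he0
    have hK0pos : 1 ≤ K0 := by
      have : 0 ≤ ∑ p, Kf p := Finset.sum_nonneg (fun p _ => hKf p)
      rw [hK0]; linarith
    have hlow' : ∀ p, Reach 𝒜 q p → ¬ Reach 𝒜 p q → ∀ t,
        (val 𝒜 t p : ℝ) ≤ K0 * (t.size : ℝ) ^ e0 * L ^ t.size := by
      intro p h1 h2 t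
      refine le_trans (hKef p ⟨h1, h2⟩ t) ?_
      have hs : (1 : ℝ) ≤ (t.size : ℝ) := by exact_mod_cast size_pos t
      have a1 : Kf p ≤ K0 := by
        have := Finset.single_le_sum (f := Kf) (fun p _ => hKf p) (Finset.mem_univ p)
        rw [hK0]; linarith
      have a2 : (t.size : ℝ) ^ ef p ≤ (t.size : ℝ) ^ e0 := by
        apply pow_le_pow_right₀ hs
        exact Finset.single_le_sum (f := ef) (fun _ _ => Nat.zero_le _) (Finset.mem_univ p)
      have a3 : (0 : ℝ) ≤ (t.size : ℝ) ^ ef p := by positivity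
      apply mul_le_mul_of_nonneg_right _ (by positivity)
      exact mul_le_mul a1 a2 a3 (by linarith)
    -- the class of `q`
    set 𝒦 : Finset 𝒜.Q := Finset.univ.filter (fun p => Reach 𝒜 q p ∧ Reach 𝒜 p q) with h𝒦
    have mem𝒦 : ∀ p, p ∈ 𝒦 ↔ (Reach 𝒜 q p ∧ Reach 𝒜 p q) := by intro p; simp [h𝒦]
    have hback : ∀ p, ∃ s : ℕ, (p ∈ 𝒦 → ∀ C : Cx 𝒜, (C.M q p : ℝ) ≤ L ^ s * L ^ C.s) := by
      intro p
      by_cases hp : p ∈ 𝒦
      · obtain ⟨D, hD⟩ := ((mem𝒦 p).1 hp).2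
        refine ⟨D.s, fun _ C => ?_⟩
        have h1 := hL q hacc hprod (C.comp D)
        have h2 : C.M q p ≤ (C.comp D).M q q := by
          refine le_trans ?_ (Cx.le_comp C D q p q)
          exact Nat.le_mul_of_pos_right _ hD
        have h3 : (C.M q p : ℝ) ≤ ((C.comp D).M q q : ℝ) := by exact_mod_cast h2
        refine le_trans h3 (le_trans h1 ?_)
        show L ^ (C.s + D.s) ≤ _
        rw [pow_add, mul_comm]
      · exact ⟨0, fun h => absurd h hp⟩
    choose sf hsf using hback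
    set K1 : ℝ := ∑ p, L ^ sf p with hK1
    have hK1nn : 0 ≤ K1 := Finset.sum_nonneg (fun p _ => by positivity)
    have hback' : ∀ p ∈ 𝒦, ∀ C : Cx 𝒜, (C.M q p : ℝ) ≤ K1 * L ^ C.s := by
      intro p hp C
      refine le_trans (hsf p hp C) ?_
      apply mul_le_mul_of_nonneg_right _ (by positivity)
      exact Finset.single_le_sum (f := fun p => L ^ sf p) (fun p _ => by positivity)
        (Finset.mem_univ p)
    -- the exit part
    set R := RR rank with hR
    set W : ℝ := (WW 𝒜 : ℝ) with hW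
    have hexit : ∀ (a : A) (c : Fin (rank a) → Tree A rank), ∀ q' ∈ 𝒦,
        ((∑ ps ∈ (Finset.univ.filter fun ps : Fin (rank a) → 𝒜.Q => ∀ i, ps i ∉ 𝒦),
          𝒜.μ a ps q' * ∏ j, val 𝒜 (c j) (ps j) : ℕ) : ℝ) ≤
        W * (K0 ^ R * ((Tree.node a c).size : ℝ) ^ (e0 * R) * L ^ (Tree.node a c).size) := by
      intro a c q' hq'
      set N := (Tree.node a c).size with hN
      have hN1 : (1 : ℝ) ≤ (N : ℝ) := by exact_mod_cast size_pos _
      set X : ℝ := K0 ^ R * (N : ℝ) ^ (e0 * R) * L ^ N with hX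
      have hX0 : 0 ≤ X := by positivity
      have hterm : ∀ ps ∈ (Finset.univ.filter fun ps : Fin (rank a) → 𝒜.Q => ∀ i, ps i ∉ 𝒦),
          ((𝒜.μ a ps q' * ∏ j, val 𝒜 (c j) (ps j) : ℕ) : ℝ) ≤ (𝒜.μ a ps q' : ℝ) * X := by
        intro ps hps
        have hps' := (Finset.mem_filter.1 hps).2
        by_cases h0 : 𝒜.μ a ps q' * ∏ j, val 𝒜 (c j) (ps j) = 0
        · rw [h0]; push_cast; positivity
        · push_cast
          apply mul_le_mul_of_nonneg_left _ (Nat.cast_nonneg _)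
          have hr : ∀ i, (val 𝒜 (c i) (ps i) : ℝ) ≤
              K0 * (N : ℝ) ^ e0 * L ^ (c i).size := by
            intro i
            have r1 := reach_of_term 𝒜 a c ps q' h0 i
            have r2 : Reach 𝒜 q (ps i) := ((mem𝒦 q').1 hq').1.trans 𝒜 r1
            have r3 : ¬ Reach 𝒜 (ps i) q := fun h => hps' i ((mem𝒦 _).2 ⟨r2, h⟩)
            refine le_trans (hlow' _ r2 r3 (c i)) ?_
            apply mul_le_mul_of_nonneg_right _ (by positivity)
            apply mul_le_mul_of_nonneg_left _ (by linarith)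
            apply pow_le_pow_left₀ (by positivity)
            exact_mod_cast size_le a c i
          calc ∏ i, (val 𝒜 (c i) (ps i) : ℝ) ≤ ∏ i, (K0 * (N : ℝ) ^ e0 * L ^ (c i).size) :=
                Finset.prod_le_prod (fun i _ => Nat.cast_nonneg _) (fun i _ => hr i)
            _ = (K0 * (N : ℝ) ^ e0) ^ (rank a) * L ^ (∑ i, (c i).size) := by
                rw [Finset.prod_mul_distrib, Finset.prod_const, Finset.card_univ,
                  Fintype.card_fin, Finset.prod_pow_eq_pow_sum]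
            _ ≤ (K0 * (N : ℝ) ^ e0) ^ R * L ^ N := by
                have b1 : (1 : ℝ) ≤ K0 * (N : ℝ) ^ e0 := by
                  have : (1 : ℝ) ≤ (N : ℝ) ^ e0 := one_le_pow₀ hN1
                  nlinarith
                apply mul_le_mul
                · exact pow_le_pow_right₀ b1 (rank_le a)
                · apply pow_le_pow_right₀ hL1
                  rw [hN, Tree.size]; omega
                · positivity
                · positivity
            _ = X := by rw [hX, mul_pow, ← pow_mul]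
      calc ((∑ ps ∈ (Finset.univ.filter fun ps : Fin (rank a) → 𝒜.Q => ∀ i, ps i ∉ 𝒦),
          𝒜.μ a ps q' * ∏ j, val 𝒜 (c j) (ps j) : ℕ) : ℝ)
          = ∑ ps ∈ (Finset.univ.filter fun ps : Fin (rank a) → 𝒜.Q => ∀ i, ps i ∉ 𝒦),
            ((𝒜.μ a ps q' * ∏ j, val 𝒜 (c j) (ps j) : ℕ) : ℝ) := by push_cast; rfl
        _ ≤ ∑ ps ∈ (Finset.univ.filter fun ps : Fin (rank a) → 𝒜.Q => ∀ i, ps i ∉ 𝒦),
            (𝒜.μ a ps q' : ℝ) * X := Finset.sum_le_sum hterm
        _ ≤ ∑ ps : Fin (rank a) → 𝒜.Q, (𝒜.μ a ps q' : ℝ) * X := by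
            apply Finset.sum_le_sum_of_subset_of_nonneg (Finset.subset_univ _)
            intro ps _ _; positivity
        _ = (∑ ps : Fin (rank a) → 𝒜.Q, (𝒜.μ a ps q' : ℝ)) * X := by rw [Finset.sum_mul]
        _ ≤ W * X := by
            apply mul_le_mul_of_nonneg_right _ hX0
            rw [hW]
            exact_mod_cast sum_μ_le 𝒜 a q'
    -- the main induction on trees
    set B : ℝ := (𝒦.card : ℝ) * (K1 * (W * K0 ^ R)) with hB
    have hW0 : 0 ≤ W := by rw [hW]; positivity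
    have hB0 : 0 ≤ B := by positivity
    have hmain : ∀ t : Tree A rank, ∀ C : Cx 𝒜,
        ∑ q' ∈ 𝒦, (C.M q q' : ℝ) * (val 𝒜 t q' : ℝ) ≤
          B * (t.size : ℝ) ^ (e0 * R) * L ^ (C.s + t.size) * (t.size : ℝ) := by
      intro t
      induction t with
      | node a c iht =>
        intro C
        set N := (Tree.node a c).size with hN
        have hN1 : (1 : ℝ) ≤ (N : ℝ) := by exact_mod_cast size_pos _
        have s1 : ∀ q' ∈ 𝒦, (C.M q q' : ℝ) * (val 𝒜 (Tree.node a c) q' : ℝ) ≤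
            (K1 * L ^ C.s) * (W * (K0 ^ R * (N : ℝ) ^ (e0 * R) * L ^ N)) +
            ∑ i, ∑ p ∈ 𝒦, (C.M q q' : ℝ) * (((Cx.node 𝒜 a c i).M q' p : ℝ) *
              (val 𝒜 (c i) p : ℝ)) := by
          intro q' hq'
          have h1 : (val 𝒜 (Tree.node a c) q' : ℝ) ≤
              ((∑ ps ∈ (Finset.univ.filter fun ps : Fin (rank a) → 𝒜.Q => ∀ i, ps i ∉ 𝒦),
                𝒜.μ a ps q' * ∏ j, val 𝒜 (c j) (ps j) : ℕ) : ℝ) +
              ((∑ i, ∑ p ∈ 𝒦, (Cx.node 𝒜 a c i).M q' p * val 𝒜 (c i) p : ℕ) : ℝ) := by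
            exact_mod_cast val_le_split 𝒜 a c q' 𝒦
          have h2 := hexit a c q' hq'
          have h3 := hback' q' hq' C
          have h4 : (0 : ℝ) ≤ (C.M q q' : ℝ) := Nat.cast_nonneg _
          calc (C.M q q' : ℝ) * (val 𝒜 (Tree.node a c) q' : ℝ)
              ≤ (C.M q q' : ℝ) * ((W * (K0 ^ R * (N : ℝ) ^ (e0 * R) * L ^ N)) +
              ((∑ i, ∑ p ∈ 𝒦, (Cx.node 𝒜 a c i).M q' p * val 𝒜 (c i) p : ℕ) : ℝ)) := by
                apply mul_le_mul_of_nonneg_left _ h4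
                linarith
            _ = (C.M q q' : ℝ) * (W * (K0 ^ R * (N : ℝ) ^ (e0 * R) * L ^ N)) +
              (C.M q q' : ℝ) *
                ((∑ i, ∑ p ∈ 𝒦, (Cx.node 𝒜 a c i).M q' p * val 𝒜 (c i) p : ℕ) : ℝ) := by ring
            _ ≤ (K1 * L ^ C.s) * (W * (K0 ^ R * (N : ℝ) ^ (e0 * R) * L ^ N)) +
              (C.M q q' : ℝ) *
                ((∑ i, ∑ p ∈ 𝒦, (Cx.node 𝒜 a c i).M q' p * val 𝒜 (c i) p : ℕ) : ℝ) := by
                have : (0 : ℝ) ≤ W * (K0 ^ R * (N : ℝ) ^ (e0 * R) * L ^ N) := by positivity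
                have := mul_le_mul_of_nonneg_right h3 this
                linarith
            _ = _ := by
                congr 1
                push_cast
                rw [Finset.mul_sum]
                apply Finset.sum_congr rfl; intro i _
                rw [Finset.mul_sum]
        have s2 : ∀ i, ∑ q' ∈ 𝒦, ∑ p ∈ 𝒦, (C.M q q' : ℝ) * (((Cx.node 𝒜 a c i).M q' p : ℝ) *
              (val 𝒜 (c i) p : ℝ)) ≤
            B * (N : ℝ) ^ (e0 * R) * L ^ (C.s + N) * ((c i).size : ℝ) := by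
          intro i
          have h1 : ∑ q' ∈ 𝒦, ∑ p ∈ 𝒦, (C.M q q' : ℝ) * (((Cx.node 𝒜 a c i).M q' p : ℝ) *
              (val 𝒜 (c i) p : ℝ)) ≤
              ∑ p ∈ 𝒦, ((C.comp (Cx.node 𝒜 a c i)).M q p : ℝ) * (val 𝒜 (c i) p : ℝ) := by
            rw [Finset.sum_comm]
            apply Finset.sum_le_sum
            intro p _
            have : ∑ q' ∈ 𝒦, (C.M q q' : ℝ) * (((Cx.node 𝒜 a c i).M q' p : ℝ) *
              (val 𝒜 (c i) p : ℝ)) = (∑ q' ∈ 𝒦, (C.M q q' : ℝ) *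
                ((Cx.node 𝒜 a c i).M q' p : ℝ)) * (val 𝒜 (c i) p : ℝ) := by
              rw [Finset.sum_mul]
              apply Finset.sum_congr rfl; intro _ _; ring
            rw [this]
            apply mul_le_mul_of_nonneg_right _ (Nat.cast_nonneg _)
            have h5 : ∑ q' ∈ 𝒦, C.M q q' * (Cx.node 𝒜 a c i).M q' p ≤
                (C.comp (Cx.node 𝒜 a c i)).M q p :=
              Finset.sum_le_sum_of_subset (Finset.subset_univ 𝒦)
            exact_mod_cast h5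
          refine le_trans h1 (le_trans (iht i (C.comp (Cx.node 𝒜 a c i))) ?_)
          have h6 : (C.comp (Cx.node 𝒜 a c i)).s + (c i).size = C.s + N := by
            show C.s + (Cx.node 𝒜 a c i).s + (c i).size = C.s + N
            rw [add_assoc, node_s]
          rw [h6]
          apply mul_le_mul_of_nonneg_right _ (Nat.cast_nonneg _)
          apply mul_le_mul_of_nonneg_right _ (by positivity)
          apply mul_le_mul_of_nonneg_left _ hB0
          apply pow_le_pow_left₀ (by positivity)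
          exact_mod_cast size_le a c i
        calc ∑ q' ∈ 𝒦, (C.M q q' : ℝ) * (val 𝒜 (Tree.node a c) q' : ℝ)
            ≤ ∑ q' ∈ 𝒦, ((K1 * L ^ C.s) * (W * (K0 ^ R * (N : ℝ) ^ (e0 * R) * L ^ N)) +
            ∑ i, ∑ p ∈ 𝒦, (C.M q q' : ℝ) * (((Cx.node 𝒜 a c i).M q' p : ℝ) *
              (val 𝒜 (c i) p : ℝ))) := Finset.sum_le_sum s1
          _ = (𝒦.card : ℝ) * ((K1 * L ^ C.s) * (W * (K0 ^ R * (N : ℝ) ^ (e0 * R) * L ^ N))) +
            ∑ i, ∑ q' ∈ 𝒦, ∑ p ∈ 𝒦, (C.M q q' : ℝ) * (((Cx.node 𝒜 a c i).M q' p : ℝ) *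
              (val 𝒜 (c i) p : ℝ)) := by
              rw [Finset.sum_add_distrib, Finset.sum_const, nsmul_eq_mul, Finset.sum_comm]
          _ ≤ (𝒦.card : ℝ) * ((K1 * L ^ C.s) * (W * (K0 ^ R * (N : ℝ) ^ (e0 * R) * L ^ N))) +
            ∑ i, B * (N : ℝ) ^ (e0 * R) * L ^ (C.s + N) * ((c i).size : ℝ) := by
              have := Finset.sum_le_sum (fun i (_ : i ∈ (Finset.univ : Finset (Fin (rank a)))) => s2 i)
              linarith
          _ = B * (N : ℝ) ^ (e0 * R) * L ^ (C.s + N) * (N : ℝ) := by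
              have hNN : (N : ℝ) = 1 + ∑ i, ((c i).size : ℝ) := by
                rw [hN, Tree.size]; push_cast; rfl
              rw [← Finset.mul_sum]
              have : (𝒦.card : ℝ) * ((K1 * L ^ C.s) * (W * (K0 ^ R * (N : ℝ) ^ (e0 * R) * L ^ N))) =
                B * (N : ℝ) ^ (e0 * R) * L ^ (C.s + N) := by
                rw [hB, pow_add]; ring
              rw [this]
              conv_rhs => rw [hNN]
              conv_lhs => rw [hNN]
              ring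
    refine ⟨B, e0 * R + 1, hB0, fun t => ?_⟩
    have h1 := hmain t (Cx.id 𝒜)
    have hq𝒦 : q ∈ 𝒦 := (mem𝒦 q).2 ⟨Reach.refl 𝒜 q, Reach.refl 𝒜 q⟩
    have h2 : (val 𝒜 t q : ℝ) ≤ ∑ q' ∈ 𝒦, ((Cx.id 𝒜).M q q' : ℝ) * (val 𝒜 t q' : ℝ) := by
      have := Finset.single_le_sum (f := fun q' => ((Cx.id 𝒜).M q q' : ℝ) * (val 𝒜 t q' : ℝ))
        (fun _ _ => by positivity) hq𝒦
      simpa [Cx.id] using this
    refine le_trans h2 (le_trans h1 ?_)
    show B * (t.size : ℝ) ^ (e0 * R) * L ^ (0 + t.size) * (t.size : ℝ) ≤ _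
    rw [zero_add, pow_succ]
    apply le_of_eq
    ring

end Pool.Agent.R630.WTA
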